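import Pool.Agent.Lib.MP_c72560_an.Haus

open MeasureTheory Set Filter Topology
open scoped ENNReal NNReal

namespace Pool.Agent.Lib.MP_c72560_an

/-- If the first coordinates are close then the horizontal codes agree for long. -/
lemma agree_of_close {k : ℕ} {R : ℝ} (hR : R ≤ 2 / 5 * rr ^ k) {ω ω' : ℕ → Fin 3}
    (h : |cs fa ω - cs fa ω'| < R) : ∀ j < k + 1, ω j = ω' j := by
  by_contra hcon
  push Not at hcon
  obtain ⟨j0, hj0, hne0⟩ := hcon
  have hex : ∃ j, ω j ≠ ω' j := ⟨j0, hne0⟩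
  classical
  let m := Nat.find hex
  have hm : ω m ≠ ω' m := Nat.find_spec hex
  have hmin : ∀ j < m, ω j = ω' j := fun j hj => by
    by_contra h'
    exact Nat.find_min hex hj h'
  have hmk : m ≤ k := by
    have : m ≤ j0 := Nat.find_min' hex hne0
    omega
  have h1 := cs_sub_of_agree fa m ω ω' hmin
  have h2 : 2 / 5 ≤ |cs fa (fun k => ω (m + k)) - cs fa (fun k => ω' (m + k))| :=
    cs_fa_sep (by simpa using hm)
  have h3 : 2 / 5 * rr ^ m ≤ |cs fa ω - cs fa ω'| := by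
    rw [h1, abs_mul, abs_of_pos (pow_pos rr_pos m), mul_comm]
    exact mul_le_mul_of_nonneg_left h2 (pow_pos rr_pos m).le
  have h4 : rr ^ k ≤ rr ^ m := pow_le_pow_of_le_one rr_pos.le rr_lt.le hmk
  linarith

lemma exists_level {R : ℝ} (hR : 0 < R) : ∃ k' : ℕ, 2 / 5 * rr ^ k' < R ∧
    ∀ ω ω' : ℕ → Fin 3, |cs fa ω - cs fa ω'| < R → ∀ j < k', ω j = ω' j := by
  by_cases h : 2 / 5 < R
  · exact ⟨0, by simpa using h, fun _ _ _ j hj => by omega⟩
  · push Not at h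
    obtain ⟨k, hk1, hk2⟩ := exists_nat_pow_near_of_lt_one (x := R * (5 / 2)) (by positivity)
      (by linarith) rr_pos rr_lt
    refine ⟨k + 1, by linarith, fun ω ω' hω => agree_of_close (by linarith) hω⟩

lemma exists_fine {ρ : ℝ} (hρ : 0 < ρ) : ∃ n : ℕ, rr ^ n ≤ ρ / 3 ∧
    (n = 0 ∨ ρ / 300 ≤ rr ^ n) := by
  by_cases h : 1 ≤ ρ / 3
  · exact ⟨0, by simpa using h, Or.inl rfl⟩
  · push Not at h
    obtain ⟨k, hk1, hk2⟩ := exists_nat_pow_near_of_lt_one (x := ρ / 3) (by positivity)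
      h.le rr_pos rr_lt
    refine ⟨k + 1, hk1.le, Or.inr ?_⟩
    rw [pow_succ]
    norm_num [rr] at hk2 ⊢
    linarith

lemma hundred_pow_le {R ρ : ℝ} (hρ : 0 < ρ) (hρR : ρ < R) {k' n : ℕ} (hk : 2 / 5 * rr ^ k' < R)
    (hn : n = 0 ∨ ρ / 300 ≤ rr ^ n) : (100 : ℝ) ^ (max n k' - k') ≤ 750 * (R / ρ) := by
  have hR : 0 < R := hρ.trans hρR
  have h1 : 1 ≤ R / ρ := by
    rw [one_le_div hρ]
    exact hρR.le
  by_cases hnk : n ≤ k'
  · rw [max_eq_right hnk, Nat.sub_self, pow_zero]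
    linarith
  · push Not at hnk
    rw [max_eq_left hnk.le]
    have hn' : ρ / 300 ≤ rr ^ n := by
      rcases hn with h | h
      · omega
      · exact h
    have e1 : rr ^ n = rr ^ k' * rr ^ (n - k') := by
      rw [← pow_add]
      congr 1
      omega
    have e2 : (100 : ℝ) ^ (n - k') * rr ^ (n - k') = 1 := by
      rw [← mul_pow]
      norm_num [rr]
    have hp1 : 0 < rr ^ k' := pow_pos rr_pos _
    have hp2 : 0 < rr ^ (n - k') := pow_pos rr_pos _
    have hp3 : (0 : ℝ) < 100 ^ (n - k') := by positivity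
    rw [mul_div_assoc', le_div_iff₀ hρ]
    rw [e1] at hn'
    -- 100^m * ρ ≤ 100^m * 300 * rr^k' * rr^m = 300 rr^k' ≤ 750 R
    have h3 : (100 : ℝ) ^ (n - k') * (ρ / 300) ≤ rr ^ k' := by
      calc (100 : ℝ) ^ (n - k') * (ρ / 300) ≤ 100 ^ (n - k') * (rr ^ k' * rr ^ (n - k')) :=
            mul_le_mul_of_nonneg_left hn' hp3.le
        _ = rr ^ k' * (100 ^ (n - k') * rr ^ (n - k')) := by ring
        _ = rr ^ k' := by rw [e2, mul_one]
    linarith

lemma three_pow_le {m : ℕ} {y : ℝ} (h : (100 : ℝ) ^ m ≤ y) : (3 : ℝ) ^ m ≤ y ^ (1 / 4 : ℝ) := by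
  have h1 : ((3 : ℝ) ^ m) ^ 4 ≤ y := by
    refine le_trans ?_ h
    rw [← pow_mul, mul_comm m 4, pow_mul]
    exact pow_le_pow_left₀ (by norm_num) (by norm_num) m
  have h2 : (3 : ℝ) ^ m = (((3 : ℝ) ^ m) ^ 4) ^ (1 / 4 : ℝ) := by
    have := Real.pow_rpow_inv_natCast (x := (3 : ℝ) ^ m) (n := 4) (by positivity) (by norm_num)
    rw [show (1 / 4 : ℝ) = ((4 : ℕ) : ℝ)⁻¹ by norm_num]
    exact this.symm
  rw [h2]
  exact Real.rpow_le_rpow (by positivity) h1 (by norm_num)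

lemma isAssouadExponent_FF : IsAssouadExponent FF (5 / 4) := by
  refine ⟨7 * 750 ^ (1 / 4 : ℝ), by positivity, ?_⟩
  rintro R ρ hρ hρR _ ⟨p, rfl⟩
  have hR : 0 < R := hρ.trans hρR
  obtain ⟨k', hk1, hk2⟩ := exists_level hR
  obtain ⟨n, hn1, hn2⟩ := exists_fine hρ
  set N := max n k' with hN
  set K := ⌊6 * R / ρ⌋₊ + 1 with hK
  have hNle : rr ^ N ≤ ρ / 3 :=
    (pow_le_pow_of_le_one rr_pos.le rr_lt.le (le_max_left n k')).trans hn1
  let U : ((Fin (N - k') → Fin 3) × Fin K) → Set (E 3) := fun i =>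
    pt '' {q | (∀ j < k', p.1 j = q.1 j) ∧ (∀ j : Fin (N - k'), q.1 (k' + j) = i.1 j) ∧
      (i.2 : ℝ) ≤ (cs fc q.2 - (cs fc p.2 - R)) / (ρ / 3) ∧
      (cs fc q.2 - (cs fc p.2 - R)) / (ρ / 3) < (i.2 : ℝ) + 1}
  have h1 : coverNumber ρ (Metric.ball (pt p) R ∩ FF) ≤
      (Fintype.card ((Fin (N - k') → Fin 3) × Fin K) : ℝ≥0∞) := by
    apply coverNumber_le_card U
    · rintro ⟨w, i⟩
      apply Metric.ediam_le_of_forall_dist_le
      rintro _ ⟨q, ⟨hq1, hq2, hq3, hq4⟩, rfl⟩ _ ⟨q', ⟨hq1', hq2', hq3', hq4'⟩, rfl⟩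
      have hag : ∀ j < N, q.1 j = q'.1 j := by
        intro j hj
        by_cases hjk : j < k'
        · exact (hq1 j hjk).symm.trans (hq1' j hjk)
        · have e1 := hq2 ⟨j - k', by omega⟩
          have e2 := hq2' ⟨j - k', by omega⟩
          have e3 : k' + (j - k') = j := by omega
          simp only [e3] at e1 e2
          exact e1.trans e2.symm
      have a1 := abs_cs_sub_le_of_agree fa_mem hag
      have a2 := abs_cs_sub_le_of_agree fb_mem hag
      have a3 : |cs fc q.2 - cs fc q'.2| ≤ ρ / 3 := by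
        rw [le_div_iff₀ (by positivity)] at hq3 hq3'
        rw [div_lt_iff₀ (by positivity)] at hq4 hq4'
        rw [abs_le]
        constructor <;> linarith
      have a4 := dist_le_sum (pt q) (pt q')
      simp only [pt_zero, pt_one, pt_two] at a4
      linarith
    · rintro _ ⟨hball, q, rfl⟩
      rw [Metric.mem_ball, dist_comm] at hball
      have b1 := (abs_sub_le_dist (pt p) (pt q) 0).trans_lt hball
      have b2 := (abs_sub_le_dist (pt p) (pt q) 2).trans_lt hball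
      simp only [pt_zero, pt_two] at b1 b2
      rw [abs_lt] at b2
      have hy0 : 0 ≤ (cs fc q.2 - (cs fc p.2 - R)) / (ρ / 3) := by
        apply div_nonneg _ (by positivity)
        linarith
      have hy1 : (cs fc q.2 - (cs fc p.2 - R)) / (ρ / 3) ≤ 6 * R / ρ := by
        rw [div_le_iff₀ (by positivity)]
        have : 6 * R / ρ * (ρ / 3) = 2 * R := by
          field_simp
          norm_num
        rw [this]
        linarith
      refine mem_iUnion.mpr ⟨(fun j => q.1 (k' + j),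
        ⟨⌊(cs fc q.2 - (cs fc p.2 - R)) / (ρ / 3)⌋₊, ?_⟩), q, ⟨?_, ?_, ?_, ?_⟩, rfl⟩
      · rw [hK]
        exact Nat.lt_succ_of_le (Nat.floor_le_floor hy1)
      · exact hk2 _ _ b1
      · intro j
        rfl
      · exact Nat.floor_le hy0
      · exact Nat.lt_floor_add_one _
  refine h1.trans ?_
  rw [Fintype.card_prod, Fintype.card_fin]
  simp only [Fintype.card_pi, Fintype.card_fin, Finset.prod_const, Finset.card_univ]
  rw [← ENNReal.ofReal_natCast]
  apply ENNReal.ofReal_le_ofReal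
  push_cast
  have hq : 1 ≤ R / ρ := by
    rw [one_le_div hρ]
    exact hρR.le
  have c1 := three_pow_le (hundred_pow_le hρ hρR hk1 hn2)
  rw [← hN, Real.mul_rpow (by norm_num) (by positivity)] at c1
  have c2 : (⌊6 * R / ρ⌋₊ : ℝ) + 1 ≤ 7 * (R / ρ) := by
    have := Nat.floor_le (a := 6 * R / ρ) (by positivity)
    rw [mul_div_assoc] at this
    rw [mul_div_assoc]
    linarith
  have c3 : (R / ρ) ^ (5 / 4 : ℝ) = (R / ρ) ^ (1 / 4 : ℝ) * (R / ρ) := by
    rw [show (5 / 4 : ℝ) = 1 / 4 + 1 by norm_num, Real.rpow_add (by positivity), Real.rpow_one]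
  have hKc : (K : ℝ) = (⌊6 * R / ρ⌋₊ : ℝ) + 1 := by
    rw [hK]
    push_cast
    ring
  rw [c3, hKc]
  calc (3 : ℝ) ^ (N - k') * ((⌊6 * R / ρ⌋₊ : ℝ) + 1) ≤
      (750 ^ (1 / 4 : ℝ) * (R / ρ) ^ (1 / 4 : ℝ)) * (7 * (R / ρ)) := by
        apply mul_le_mul c1 c2 (by positivity) (by positivity)
    _ = 7 * 750 ^ (1 / 4 : ℝ) * ((R / ρ) ^ (1 / 4 : ℝ) * (R / ρ)) := by ring

end Pool.Agent.Lib.MP_c72560_an
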