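import Pool.Agent.Lib.MP_c72560_an.Codes

open MeasureTheory Set Filter Topology
open scoped ENNReal NNReal

namespace Pool.Agent.Lib.MP_c72560_an

/-- a rapidly converging series -/
noncomputable def lam : ℝ := ∑' i : ℕ, rr ^ ((i + 1) ^ 2)

lemma summable_lam : Summable fun i : ℕ => rr ^ ((i + 1) ^ 2) := by
  apply Summable.of_nonneg_of_le (fun i => pow_nonneg rr_pos.le _) _
    (summable_geometric_of_lt_one rr_pos.le rr_lt)
  intro i
  apply pow_le_pow_of_le_one rr_pos.le rr_lt.le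
  nlinarith

lemma lam_tail (J : ℕ) : 0 < lam - ∑ i ∈ Finset.range (J + 1), rr ^ ((i + 1) ^ 2) ∧
    lam - ∑ i ∈ Finset.range (J + 1), rr ^ ((i + 1) ^ 2) ≤ 2 * rr ^ ((J + 2) ^ 2) := by
  have h1 := summable_lam.sum_add_tsum_nat_add (J + 1)
  have h2 : lam - ∑ i ∈ Finset.range (J + 1), rr ^ ((i + 1) ^ 2) =
      ∑' i : ℕ, rr ^ ((i + (J + 1) + 1) ^ 2) := by
    unfold lam
    rw [← h1]
    ring
  rw [h2]
  have h3 : Summable fun i : ℕ => rr ^ ((i + (J + 1) + 1) ^ 2) :=
    (summable_nat_add_iff (f := fun i : ℕ => rr ^ ((i + 1) ^ 2)) (J + 1)).mpr summable_lam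
  constructor
  · exact h3.tsum_pos (fun i => pow_nonneg rr_pos.le _) 0 (pow_pos rr_pos _)
  · have h4 : Summable fun i : ℕ => rr ^ ((J + 2) ^ 2) * rr ^ i :=
      (summable_geometric_of_lt_one rr_pos.le rr_lt).mul_left _
    have h5 : ∑' i : ℕ, rr ^ ((i + (J + 1) + 1) ^ 2) ≤ ∑' i : ℕ, rr ^ ((J + 2) ^ 2) * rr ^ i := by
      apply h3.tsum_le_tsum _ h4
      intro i
      rw [← pow_add]
      apply pow_le_pow_of_le_one rr_pos.le rr_lt.le
      have e1 : (i + (J + 1) + 1) ^ 2 = (J + 2) ^ 2 + i * (2 * (J + 2) + i) := by ring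
      have e2 : i ≤ i * (2 * (J + 2) + i) := Nat.le_mul_of_pos_right i (by omega)
      omega
    refine h5.trans ?_
    rw [tsum_mul_left, tsum_geometric_of_lt_one rr_pos.le rr_lt]
    have h6 : (1 - rr)⁻¹ ≤ 2 := by norm_num [rr]
    have h7 : 0 < rr ^ ((J + 2) ^ 2) := pow_pos rr_pos _
    nlinarith

lemma lam_nonneg : 0 ≤ lam := tsum_nonneg fun _ => pow_nonneg rr_pos.le _

lemma lam_le_one : lam ≤ 1 := by
  have h := (lam_tail 0).2
  simp only [zero_add, Finset.range_one, Finset.sum_singleton] at h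
  norm_num [rr] at h ⊢
  linarith

/-- vertical digits -/
noncomputable def fc : Fin 3 → ℝ := ![0, 99 / 100, 99 / 100 * lam]

lemma fc_mem (i : Fin 3) : 0 ≤ fc i ∧ fc i ≤ 99 / 100 := by
  have h1 := lam_nonneg
  have h2 := lam_le_one
  fin_cases i
  · norm_num [fc]
  · norm_num [fc]
  · simp only [fc]
    constructor
    · simp
      positivity
    · simp
      linarith

/-- values of vertical words of length `L` -/
def TT (L : ℕ) : Set ℝ := {x | ∃ d : ℕ → Fin 3, x = ∑ k ∈ Finset.range L, rr ^ k * fc (d k)}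

lemma TT_concat {L L' : ℕ} {a t : ℝ} (ha : a ∈ TT L') (ht : t ∈ TT L) :
    a + rr ^ L' * t ∈ TT (L' + L) := by
  obtain ⟨d, rfl⟩ := ha
  obtain ⟨e, rfl⟩ := ht
  refine ⟨fun k => if k < L' then d k else e (k - L'), ?_⟩
  rw [Finset.sum_range_add]
  congr 1
  · apply Finset.sum_congr rfl
    intro k hk
    beta_reduce
    rw [if_pos (Finset.mem_range.mp hk)]
  · rw [Finset.mul_sum]
    apply Finset.sum_congr rfl
    intro k _
    beta_reduce
    rw [if_neg (by omega), Nat.add_sub_cancel_left, pow_add]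
    ring

lemma pair {η : ℝ} (h0 : 0 < η) (h1 : η < 1) : ∃ (L : ℕ) (a b : ℝ), a ∈ TT L ∧ b ∈ TT L ∧
    rr ^ (L + 1) * η ≤ b - a ∧ b - a ≤ rr ^ L * η := by
  obtain ⟨J, hJ⟩ : ∃ J : ℕ, rr ^ J < η / 2 := exists_pow_lt_of_lt_one (by positivity) rr_lt
  have hJ2 : 2 * rr ^ (2 * J + 2) < η := by
    have : rr ^ (2 * J + 2) ≤ rr ^ J := pow_le_pow_of_le_one rr_pos.le rr_lt.le (by omega)
    linarith
  obtain ⟨t1, t2⟩ := lam_tail J
  set ρ : ℝ := 99 / 100 * (lam - ∑ i ∈ Finset.range (J + 1), rr ^ ((i + 1) ^ 2)) with hρ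
  have hρ0 : 0 < ρ := by positivity
  have hρ1 : ρ ≤ 2 * rr ^ ((J + 2) ^ 2) := by linarith
  have hρη : ρ / η ≤ 1 := by
    rw [div_le_one h0]
    have : rr ^ ((J + 2) ^ 2) ≤ rr ^ (2 * J + 2) :=
      pow_le_pow_of_le_one rr_pos.le rr_lt.le (by nlinarith)
    linarith
  obtain ⟨L, hL1, hL2⟩ := exists_nat_pow_near_of_lt_one (div_pos hρ0 h0) hρη rr_pos rr_lt
  rw [lt_div_iff₀ h0] at hL1
  rw [div_le_iff₀ h0] at hL2
  have hL : (J + 1) ^ 2 + 1 ≤ L := by
    by_contra hcon
    push Not at hcon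
    have h3 : rr ^ ((J + 1) ^ 2 + 1) ≤ rr ^ (L + 1) :=
      pow_le_pow_of_le_one rr_pos.le rr_lt.le (by omega)
    have h4 : rr ^ ((J + 2) ^ 2) = rr ^ ((J + 1) ^ 2 + 1) * rr ^ (2 * J + 2) := by
      rw [← pow_add]
      congr 1
      ring
    have h5 : 0 < rr ^ ((J + 1) ^ 2 + 1) := pow_pos rr_pos _
    have h6 : rr ^ ((J + 1) ^ 2 + 1) * η ≤ rr ^ (L + 1) * η :=
      mul_le_mul_of_nonneg_right h3 h0.le
    rw [h4] at hρ1
    nlinarith
  refine ⟨L, 99 / 100 * ∑ i ∈ Finset.range (J + 1), rr ^ ((i + 1) ^ 2), 99 / 100 * lam,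
    ?_, ?_, ?_, ?_⟩
  · let S : Finset ℕ := (Finset.range (J + 1)).image fun i => (i + 1) ^ 2
    refine ⟨fun k => if k ∈ S then 1 else 0, ?_⟩
    have e1 : ∑ k ∈ Finset.range L, rr ^ k * fc (if k ∈ S then 1 else 0) =
        ∑ k ∈ Finset.range L, if k ∈ S then rr ^ k * (99 / 100) else 0 := by
      apply Finset.sum_congr rfl
      intro k _
      by_cases hk : k ∈ S
      · rw [if_pos hk, if_pos hk]
        simp [fc]
      · rw [if_neg hk, if_neg hk]
        simp [fc]
    rw [e1, ← Finset.sum_filter]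
    have e2 : (Finset.range L).filter (fun k => k ∈ S) = S := by
      ext k
      simp only [Finset.mem_filter, Finset.mem_range, and_iff_right_iff_imp]
      intro hk
      simp only [S, Finset.mem_image, Finset.mem_range] at hk
      obtain ⟨i, hi, rfl⟩ := hk
      have : (i + 1) ^ 2 ≤ (J + 1) ^ 2 := Nat.pow_le_pow_left (by omega) 2
      omega
    rw [e2]
    simp only [S]
    rw [Finset.sum_image, Finset.mul_sum]
    · apply Finset.sum_congr rfl
      intro i _
      ring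
    · intro i _ j _ hij
      simp only at hij
      have := Nat.pow_left_injective (n := 2) (by norm_num) hij
      omega
  · refine ⟨fun k => if k = 0 then 2 else 0, ?_⟩
    have hL0 : 0 ∈ Finset.range L := Finset.mem_range.mpr (by omega)
    rw [Finset.sum_eq_single_of_mem 0 hL0]
    · simp [fc]
    · intro k _ hk
      beta_reduce
      rw [if_neg hk]
      simp [fc]
  · rw [← mul_sub]
    exact hL1.le
  · rw [← mul_sub]
    exact hL2

lemma chain (M : ℕ) : ∀ η : ℝ, 0 < η → η < 1 → ∃ (L : ℕ) (x : ℕ → ℝ),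
    (∀ j ≤ M, x j ∈ TT L) ∧
    ∀ j < M, rr ^ (L + 1) * η ≤ x (j + 1) - x j ∧ x (j + 1) - x j ≤ rr ^ L * η := by
  induction M with
  | zero =>
    intro η _ _
    exact ⟨0, fun _ => 0, fun j _ => ⟨fun _ => 0, by simp⟩, fun j hj => by omega⟩
  | succ M ih =>
    intro η h0 h1
    obtain ⟨L, x, hx, hgap⟩ := ih η h0 h1
    have hpL : 0 < rr ^ L := pow_pos rr_pos L
    have hpL1 : rr ^ L ≤ 1 := pow_le_one₀ rr_pos.le rr_lt.le
    obtain ⟨L', a, b, ha, hb, hab1, hab2⟩ := pair (η := rr ^ L * η) (by positivity) (by nlinarith)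
    refine ⟨L' + L, fun j => if j ≤ M then a + rr ^ L' * x j else b + rr ^ L' * x M, ?_, ?_⟩
    · intro j _
      by_cases hj : j ≤ M
      · simp only [if_pos hj]
        exact TT_concat ha (hx j hj)
      · simp only [if_neg hj]
        exact TT_concat hb (hx M le_rfl)
    · intro j hj
      have hpL' : 0 < rr ^ L' := pow_pos rr_pos L'
      by_cases hj1 : j + 1 ≤ M
      · simp only [if_pos hj1, if_pos (show j ≤ M by omega)]
        obtain ⟨g1, g2⟩ := hgap j (by omega)
        have e : a + rr ^ L' * x (j + 1) - (a + rr ^ L' * x j) = rr ^ L' * (x (j + 1) - x j) := by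
          ring
        rw [e]
        constructor
        · calc rr ^ (L' + L + 1) * η = rr ^ L' * (rr ^ (L + 1) * η) := by
                rw [add_assoc, pow_add]; ring
            _ ≤ _ := mul_le_mul_of_nonneg_left g1 hpL'.le
        · calc rr ^ L' * (x (j + 1) - x j) ≤ rr ^ L' * (rr ^ L * η) :=
                mul_le_mul_of_nonneg_left g2 hpL'.le
            _ = rr ^ (L' + L) * η := by rw [pow_add]; ring
      · have hjM : j = M := by omega
        subst hjM
        simp only [if_neg hj1, if_pos le_rfl]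
        have e : b + rr ^ L' * x j - (a + rr ^ L' * x j) = b - a := by ring
        rw [e]
        constructor
        · calc rr ^ (L' + L + 1) * η = rr ^ (L' + 1) * (rr ^ L * η) := by
                rw [show L' + L + 1 = (L' + 1) + L by ring, pow_add]; ring
            _ ≤ _ := hab1
        · calc b - a ≤ rr ^ L' * (rr ^ L * η) := hab2
            _ = rr ^ (L' + L) * η := by rw [pow_add]; ring

end Pool.Agent.Lib.MP_c72560_an
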