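import Pool.Agent.Lib.MP_c72560_an.Defs

open MeasureTheory Set Filter Topology
open scoped ENNReal NNReal

namespace Pool.Agent.Lib.MP_c72560_an

/-- the contraction ratio -/
noncomputable def rr : ℝ := 1 / 100

lemma rr_pos : 0 < rr := by norm_num [rr]
lemma rr_lt : rr < 1 := by norm_num [rr]

/-- the value of a code -/
noncomputable def cs (f : Fin 3 → ℝ) (ω : ℕ → Fin 3) : ℝ := ∑' n, rr ^ n * f (ω n)

lemma exists_bound (f : Fin 3 → ℝ) : ∃ K : ℝ, 0 ≤ K ∧ ∀ i, |f i| ≤ K := by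
  obtain ⟨K, hK⟩ := (Set.finite_range fun i => |f i|).bddAbove
  refine ⟨K, (abs_nonneg (f 0)).trans (hK ⟨0, rfl⟩), fun i => hK ⟨i, rfl⟩⟩

lemma summable_cs (f : Fin 3 → ℝ) (ω : ℕ → Fin 3) : Summable fun n => rr ^ n * f (ω n) := by
  obtain ⟨K, hK0, hK⟩ := exists_bound f
  have h1 : Summable fun n : ℕ => rr ^ n * K :=
    (summable_geometric_of_lt_one rr_pos.le rr_lt).mul_right K
  apply Summable.of_norm_bounded h1
  intro n
  rw [norm_mul, Real.norm_eq_abs, Real.norm_eq_abs, abs_of_nonneg (pow_nonneg rr_pos.le n)]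
  exact mul_le_mul_of_nonneg_left (hK _) (pow_nonneg rr_pos.le n)

/-- shift of a code -/
def sh (ω : ℕ → Fin 3) : ℕ → Fin 3 := fun n => ω (n + 1)

lemma cs_succ (f : Fin 3 → ℝ) (ω : ℕ → Fin 3) : cs f ω = f (ω 0) + rr * cs f (sh ω) := by
  unfold cs
  rw [(summable_cs f ω).tsum_eq_zero_add, ← tsum_mul_left]
  simp only [pow_zero, one_mul]
  congr 1
  apply tsum_congr
  intro n
  rw [pow_succ, sh]
  ring

/-- prefix a symbol -/
def cons (i : Fin 3) (ω : ℕ → Fin 3) : ℕ → Fin 3 := fun n => Nat.casesOn n i ω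

lemma cs_cons (f : Fin 3 → ℝ) (i : Fin 3) (ω : ℕ → Fin 3) :
    cs f (cons i ω) = f i + rr * cs f ω := by
  rw [cs_succ]
  rfl

lemma cons_sh (ω : ℕ → Fin 3) : cons (ω 0) (sh ω) = ω := by
  funext n
  cases n <;> rfl

lemma continuous_cs (f : Fin 3 → ℝ) : Continuous (cs f) := by
  obtain ⟨K, hK0, hK⟩ := exists_bound f
  have h1 : Summable fun n : ℕ => rr ^ n * K :=
    (summable_geometric_of_lt_one rr_pos.le rr_lt).mul_right K
  refine continuous_tsum (fun n => ?_) h1 ?_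
  · have : Continuous fun ω : ℕ → Fin 3 => f (ω n) :=
      (continuous_of_discreteTopology (f := f)).comp (continuous_apply n)
    exact continuous_const.mul this
  · intro n ω
    rw [norm_mul, Real.norm_eq_abs, Real.norm_eq_abs, abs_of_nonneg (pow_nonneg rr_pos.le n)]
    exact mul_le_mul_of_nonneg_left (hK _) (pow_nonneg rr_pos.le n)

lemma cs_mem_Icc {f : Fin 3 → ℝ} (hf : ∀ i, 0 ≤ f i ∧ f i ≤ 99 / 100) (ω : ℕ → Fin 3) :
    0 ≤ cs f ω ∧ cs f ω ≤ 1 := by
  constructor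
  · exact tsum_nonneg fun n => mul_nonneg (pow_nonneg rr_pos.le n) (hf _).1
  · have h1 : Summable fun n : ℕ => rr ^ n * (99 / 100 : ℝ) :=
      (summable_geometric_of_lt_one rr_pos.le rr_lt).mul_right _
    have h2 : cs f ω ≤ ∑' n : ℕ, rr ^ n * (99 / 100 : ℝ) :=
      (summable_cs f ω).tsum_le_tsum
        (fun n => mul_le_mul_of_nonneg_left (hf _).2 (pow_nonneg rr_pos.le n)) h1
    rw [tsum_mul_right, tsum_geometric_of_lt_one rr_pos.le rr_lt] at h2
    have h3 : (1 - rr)⁻¹ * (99 / 100) = 1 := by norm_num [rr]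
    rwa [h3] at h2

lemma abs_cs_sub_le {f : Fin 3 → ℝ} (hf : ∀ i, 0 ≤ f i ∧ f i ≤ 99 / 100) (ω ω' : ℕ → Fin 3) :
    |cs f ω - cs f ω'| ≤ 1 := by
  have h1 := cs_mem_Icc hf ω
  have h2 := cs_mem_Icc hf ω'
  rw [abs_le]
  constructor <;> linarith

/-- If two codes agree on their first `n` symbols, the difference of the values is `r^n` times
the difference of the values of the shifted codes. -/
lemma cs_sub_of_agree (f : Fin 3 → ℝ) (n : ℕ) : ∀ ω ω' : ℕ → Fin 3, (∀ k < n, ω k = ω' k) →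
    cs f ω - cs f ω' = rr ^ n * (cs f (fun k => ω (n + k)) - cs f (fun k => ω' (n + k))) := by
  induction n with
  | zero =>
    intro ω ω' _
    simp
  | succ n ih =>
    intro ω ω' h
    have h0 : ω 0 = ω' 0 := h 0 (by omega)
    have h1 := ih (sh ω) (sh ω') (fun k hk => h (k + 1) (by omega))
    rw [cs_succ f ω, cs_succ f ω', h0]
    have e1 : (fun k => sh ω (n + k)) = fun k => ω (n + 1 + k) := by
      funext k
      simp only [sh]
      congr 1
      omega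
    have e2 : (fun k => sh ω' (n + k)) = fun k => ω' (n + 1 + k) := by
      funext k
      simp only [sh]
      congr 1
      omega
    rw [e1, e2] at h1
    rw [pow_succ]
    linear_combination rr * h1

lemma abs_cs_sub_le_of_agree {f : Fin 3 → ℝ} (hf : ∀ i, 0 ≤ f i ∧ f i ≤ 99 / 100) {n : ℕ}
    {ω ω' : ℕ → Fin 3} (h : ∀ k < n, ω k = ω' k) : |cs f ω - cs f ω'| ≤ rr ^ n := by
  rw [cs_sub_of_agree f n ω ω' h, abs_mul, abs_of_nonneg (pow_nonneg rr_pos.le n)]
  calc rr ^ n * |_| ≤ rr ^ n * 1 :=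
        mul_le_mul_of_nonneg_left (abs_cs_sub_le hf _ _) (pow_nonneg rr_pos.le n)
    _ = rr ^ n := mul_one _

/-- digits of the horizontal part, first coordinate -/
noncomputable def fa : Fin 3 → ℝ := ![0, 99 / 200, 99 / 100]
/-- digits of the horizontal part, second coordinate -/
noncomputable def fb : Fin 3 → ℝ := ![0, 99 / 100, 0]

lemma fa_mem (i : Fin 3) : 0 ≤ fa i ∧ fa i ≤ 99 / 100 := by
  fin_cases i <;> norm_num [fa]

lemma fb_mem (i : Fin 3) : 0 ≤ fb i ∧ fb i ≤ 99 / 100 := by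
  fin_cases i <;> norm_num [fb]

lemma fa_sep {i j : Fin 3} (h : i ≠ j) : 99 / 200 ≤ |fa i - fa j| := by
  fin_cases i <;> fin_cases j <;> first | (exfalso; exact h rfl) | (norm_num [fa, abs_of_pos, abs_of_neg])

lemma cs_fa_sep {ω ω' : ℕ → Fin 3} (h : ω 0 ≠ ω' 0) : 2 / 5 ≤ |cs fa ω - cs fa ω'| := by
  rw [cs_succ fa ω, cs_succ fa ω']
  have h1 := fa_sep h
  have h2 := abs_cs_sub_le fa_mem (sh ω) (sh ω')
  have h3 : fa (ω 0) - fa (ω' 0) =
      (fa (ω 0) + rr * cs fa (sh ω) - (fa (ω' 0) + rr * cs fa (sh ω'))) -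
        rr * (cs fa (sh ω) - cs fa (sh ω')) := by ring
  have h4 := abs_sub (fa (ω 0) + rr * cs fa (sh ω) - (fa (ω' 0) + rr * cs fa (sh ω')))
    (rr * (cs fa (sh ω) - cs fa (sh ω')))
  rw [← h3, abs_mul, abs_of_pos rr_pos] at h4
  have h5 : rr * |cs fa (sh ω) - cs fa (sh ω')| ≤ rr * 1 :=
    mul_le_mul_of_nonneg_left h2 rr_pos.le
  have h6 : rr * 1 = 1 / 100 := by norm_num [rr]
  linarith

end Pool.Agent.Lib.MP_c72560_an
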