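import Pool.Agent.Lib.MP_c72560_an.Defs

open MeasureTheory Set Filter Topology
open scoped ENNReal NNReal

namespace Pool.Agent.Lib.MP_c72560_an

variable {X Y : Type*} [PseudoMetricSpace X] [PseudoMetricSpace Y]

lemma coverNumber_le_card {ι : Type*} [Fintype ι] {r : ℝ} {S : Set X} (U : ι → Set X)
    (hd : ∀ i, Metric.ediam (U i) ≤ ENNReal.ofReal r) (hc : S ⊆ ⋃ i, U i) :
    coverNumber r S ≤ (Fintype.card ι : ℝ≥0∞) := by
  classical
  unfold coverNumber
  refine iInf₂_le_of_le (Finset.univ.image U) ⟨?_, ?_⟩ ?_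
  · intro V hV
    obtain ⟨i, _, rfl⟩ := Finset.mem_image.mp hV
    exact hd i
  · intro x hx
    obtain ⟨i, hi⟩ := mem_iUnion.mp (hc hx)
    refine mem_iUnion₂.mpr ⟨U i, Finset.mem_image_of_mem U (Finset.mem_univ i), hi⟩
  · have : (Finset.univ.image U).card ≤ Fintype.card ι := Finset.card_image_le
    exact_mod_cast this

lemma coverNumber_mono {r : ℝ} {S T : Set X} (h : S ⊆ T) : coverNumber r S ≤ coverNumber r T := by
  unfold coverNumber
  refine le_iInf₂ fun 𝒰 h𝒰 => iInf₂_le_of_le 𝒰 ⟨h𝒰.1, h.trans h𝒰.2⟩ le_rfl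

lemma coverNumber_image_le {r : ℝ} {S : Set X} {g : X → Y} (hg : LipschitzWith 1 g) :
    coverNumber r (g '' S) ≤ coverNumber r S := by
  classical
  unfold coverNumber
  refine le_iInf₂ fun 𝒰 h𝒰 => ?_
  refine iInf₂_le_of_le (𝒰.image fun U => g '' U) ⟨?_, ?_⟩ ?_
  · intro V hV
    obtain ⟨U, hU, rfl⟩ := Finset.mem_image.mp hV
    have h1 := hg.ediam_image_le U
    rw [ENNReal.coe_one, one_mul] at h1
    exact h1.trans (h𝒰.1 U hU)
  · rintro _ ⟨x, hx, rfl⟩
    obtain ⟨U, hU, hxU⟩ := mem_iUnion₂.mp (h𝒰.2 hx)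
    exact mem_iUnion₂.mpr ⟨g '' U, Finset.mem_image_of_mem _ hU, mem_image_of_mem g hxU⟩
  · have : (𝒰.image fun U => g '' U).card ≤ 𝒰.card := Finset.card_image_le
    exact_mod_cast this

/-- A set containing `M` points at mutual distances larger than `r` has covering number at
least `M`. -/
lemma le_coverNumber {r : ℝ} (hr : 0 ≤ r) {S : Set X} {M : ℕ} (Q : Fin M → X) (hQ : ∀ j, Q j ∈ S)
    (hsep : ∀ i j, i ≠ j → r < dist (Q i) (Q j)) : (M : ℝ≥0∞) ≤ coverNumber r S := by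
  unfold coverNumber
  refine le_iInf₂ fun 𝒰 h𝒰 => ?_
  have h1 : ∀ j, ∃ U ∈ 𝒰, Q j ∈ U := by
    intro j
    obtain ⟨U, hU, hxU⟩ := mem_iUnion₂.mp (h𝒰.2 (hQ j))
    exact ⟨U, hU, hxU⟩
  choose V hV hQV using h1
  have hinj : Function.Injective V := by
    intro i j hij
    by_contra hne
    have h2 : edist (Q i) (Q j) ≤ ENNReal.ofReal r := by
      refine (Metric.edist_le_ediam_of_mem (hQV i) (hij ▸ hQV j)).trans (h𝒰.1 _ (hV i))
    rw [edist_dist, ENNReal.ofReal_le_ofReal_iff hr] at h2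
    exact absurd h2 (not_le.mpr (hsep i j hne))
  have h3 : Fintype.card (Fin M) ≤ 𝒰.card := by
    have := Finset.card_le_card_of_injOn (s := (Finset.univ : Finset (Fin M))) V
      (fun j _ => hV j) hinj.injOn
    simpa using this
  rw [Fintype.card_fin] at h3
  exact_mod_cast h3

/-- Admissible exponents pass to images under maps that are contractions and bi-Lipschitz
on the set. -/
lemma IsAssouadExponent.image {F : Set X} {s : ℝ≥0} (hs : IsAssouadExponent F s) {g : X → Y}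
    (hg : LipschitzWith 1 g) {c : ℝ} (hc : 0 < c) (hc1 : c ≤ 1)
    (hlow : ∀ x ∈ F, ∀ y ∈ F, c * dist x y ≤ dist (g x) (g y)) :
    IsAssouadExponent (g '' F) s := by
  obtain ⟨C, hC, h⟩ := hs
  refine ⟨C * (c⁻¹) ^ (s : ℝ), by positivity, ?_⟩
  rintro R r hr hrR _ ⟨x, hx, rfl⟩
  have hR : 0 < R := hr.trans hrR
  have hsub : Metric.ball (g x) R ∩ g '' F ⊆ g '' (Metric.ball x (c⁻¹ * R) ∩ F) := by
    rintro _ ⟨hy1, y, hy, rfl⟩
    refine ⟨y, ⟨?_, hy⟩, rfl⟩
    rw [Metric.mem_ball] at hy1 ⊢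
    have h1 := hlow y hy x hx
    have h2 : c * dist y x < R := h1.trans_lt hy1
    rw [inv_mul_eq_div, lt_div_iff₀ hc]
    linarith
  have hrR' : r < c⁻¹ * R := by
    have : R ≤ c⁻¹ * R := by
      rw [inv_mul_eq_div, le_div_iff₀ hc]
      nlinarith
    linarith
  calc coverNumber r (Metric.ball (g x) R ∩ g '' F) ≤
      coverNumber r (g '' (Metric.ball x (c⁻¹ * R) ∩ F)) := coverNumber_mono hsub
    _ ≤ coverNumber r (Metric.ball x (c⁻¹ * R) ∩ F) := coverNumber_image_le hg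
    _ ≤ ENNReal.ofReal (C * (c⁻¹ * R / r) ^ (s : ℝ)) := h _ _ hr hrR' x hx
    _ = ENNReal.ofReal (C * (c⁻¹) ^ (s : ℝ) * (R / r) ^ (s : ℝ)) := by
      congr 1
      rw [mul_div_assoc, Real.mul_rpow (by positivity) (by positivity)]
      ring

/-- Lower bound for the Assouad dimension from almost arithmetic progressions. -/
lemma one_le_of_progressions {F : Set X} {s : ℝ≥0} (hs : IsAssouadExponent F s) {κ : ℝ}
    (hκ : 0 < κ) (hκ1 : κ ≤ 1)
    (h : ∀ M : ℕ, ∃ (R : ℝ) (Q : Fin (M + 1) → X), 0 < R ∧ (∀ j, Q j ∈ F) ∧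
      (∀ j, dist (Q j) (Q 0) < R) ∧
      ∀ i j, i ≠ j → κ * R / (M + 1) ≤ dist (Q i) (Q j)) : 1 ≤ s := by
  obtain ⟨C, hC, hN⟩ := hs
  by_contra hlt
  push Not at hlt
  have hlt' : (s : ℝ) < 1 := by exact_mod_cast hlt
  have hbound : ∀ M : ℕ, ((M : ℝ) + 1) ^ (1 - (s : ℝ)) ≤ C * (2 / κ) ^ (s : ℝ) := by
    intro M
    obtain ⟨R, Q, hR, hQF, hQball, hsep⟩ := h M
    have hM : (0 : ℝ) < (M : ℝ) + 1 := by positivity
    set ρ : ℝ := κ * R / (M + 1) / 2 with hρ
    have hρ0 : 0 < ρ := by positivity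
    have hρR : ρ < R := by
      have h1 : κ * R / (M + 1) ≤ R := by
        rw [div_le_iff₀ hM]
        have : (1 : ℝ) ≤ (M : ℝ) + 1 := by
          have := Nat.cast_nonneg (α := ℝ) M
          linarith
        nlinarith
      rw [hρ]
      linarith
    have h1 : ((M + 1 : ℕ) : ℝ≥0∞) ≤ coverNumber ρ (Metric.ball (Q 0) R ∩ F) := by
      have hmem : ∀ j, Q j ∈ Metric.ball (Q 0) R ∩ F := fun j =>
        Set.mem_inter (Metric.mem_ball.mpr (hQball j)) (hQF j)
      refine le_coverNumber hρ0.le Q hmem ?_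
      intro i j hij
      have := hsep i j hij
      have h2 : ρ < κ * R / (M + 1) := by
        rw [hρ]
        have : 0 < κ * R / (M + 1) := by positivity
        linarith
      linarith
    have h2 := h1.trans (hN R ρ hρ0 hρR (Q 0) (hQF 0))
    have h3 : ((M : ℝ) + 1) ≤ C * (R / ρ) ^ (s : ℝ) := by
      have h4 : ((M + 1 : ℕ) : ℝ≥0∞) = ENNReal.ofReal ((M : ℝ) + 1) := by
        rw [← ENNReal.ofReal_natCast]
        congr 1
        push_cast
        ring
      rw [h4] at h2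
      rwa [ENNReal.ofReal_le_ofReal_iff (by positivity)] at h2
    have h5 : R / ρ = 2 / κ * ((M : ℝ) + 1) := by
      rw [hρ]
      field_simp
    rw [h5, Real.mul_rpow (by positivity) (by positivity)] at h3
    rw [Real.rpow_sub hM, Real.rpow_one, div_le_iff₀ (by positivity)]
    linarith
  have h1 : Tendsto (fun M : ℕ => ((M : ℝ) + 1) ^ (1 - (s : ℝ))) atTop atTop :=
    (tendsto_rpow_atTop (by linarith)).comp
      (tendsto_atTop_add_const_right _ _ tendsto_natCast_atTop_atTop)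
  obtain ⟨M, hM⟩ := (h1.eventually_gt_atTop (C * (2 / κ) ^ (s : ℝ))).exists
  exact absurd (hbound M) (not_le.mpr hM)

end Pool.Agent.Lib.MP_c72560_an
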