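import Mathlib

/-!
Definitions used in the statement about Assouad dimensions of projections of self-similar sets.
-/

open MeasureTheory Set
open scoped ENNReal NNReal

namespace Pool.Agent.Lib.MP_c72560_an

/-- `N_r(E)`: the least number of sets of diameter at most `r` needed to cover `E`. -/
noncomputable def coverNumber {X : Type*} [PseudoMetricSpace X] (r : ℝ) (E : Set X) : ℝ≥0∞ :=
  ⨅ (𝒰 : Finset (Set X)) (_ : (∀ U ∈ 𝒰, Metric.ediam U ≤ ENNReal.ofReal r) ∧ E ⊆ ⋃ U ∈ 𝒰, U),
    (𝒰.card : ℝ≥0∞)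

/-- `s` is an admissible exponent in the definition of the Assouad dimension of `F`: there is
`C > 0` with `N_r(B(x,R) ∩ F) ≤ C (R / r)^s` for all `0 < r < R` and all `x ∈ F`. -/
def IsAssouadExponent {X : Type*} [PseudoMetricSpace X] (F : Set X) (s : ℝ≥0) : Prop :=
  ∃ C : ℝ, 0 < C ∧ ∀ R r : ℝ, 0 < r → r < R → ∀ x ∈ F,
    coverNumber r (Metric.ball x R ∩ F) ≤ ENNReal.ofReal (C * (R / r) ^ (s : ℝ))

/-- The Assouad dimension: the infimum of the admissible exponents. -/
noncomputable def assouadDim {X : Type*} [PseudoMetricSpace X] (F : Set X) : ℝ≥0∞ :=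
  ⨅ (s : ℝ≥0) (_ : IsAssouadExponent F s), (s : ℝ≥0∞)

/-- Euclidean space `ℝ^d`. -/
abbrev E (d : ℕ) : Type := EuclideanSpace ℝ (Fin d)

/-- The unit cube `[0,1]^d`. -/
def unitCube (d : ℕ) : Set (E d) := {x | ∀ i, 0 ≤ x i ∧ x i ≤ 1}

/-- `T` is a contracting similarity of `ℝ^d` mapping the unit cube into itself. -/
def IsCubeSimilarity {d : ℕ} (T : E d → E d) : Prop :=
  (∃ c : ℝ, 0 < c ∧ c < 1 ∧ ∀ x y, dist (T x) (T y) = c * dist x y) ∧
    ∀ x ∈ unitCube d, T x ∈ unitCube d

/-- `F ⊆ [0,1]^d` is self-similar: it is the attractor (the non-empty compact solution of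
`F = ⋃ i, S i (F)`) of a finite family of contracting similarities of `ℝ^d` mapping the unit
cube into itself. -/
def IsSelfSimilar {d : ℕ} (F : Set (E d)) : Prop :=
  ∃ (n : ℕ) (S : Fin n → E d → E d), (∀ i, IsCubeSimilarity (S i)) ∧
    F.Nonempty ∧ IsCompact F ∧ F ⊆ unitCube d ∧ F = ⋃ i, S i '' F

/-- The orthogonal projection of `ℝ^d` onto the hyperplane orthogonal to `v`. -/
noncomputable def projPerp {d : ℕ} (v : E d) (x : E d) : E d :=
  ((Submodule.span ℝ {v})ᗮ).starProjection x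

/-- `F` is not contained in any affine hyperplane of `ℝ^d`. -/
def NotInHyperplane {d : ℕ} (F : Set (E d)) : Prop :=
  ∀ (v : E d) (c : ℝ), (∀ x ∈ F, ∑ i, v i * x i = c) → v = 0

/-- `P` holds for almost every unit vector of `ℝ^d`, for the surface measure on the unit
sphere. -/
def AlmostEveryDirection {d : ℕ} (P : E d → Prop) : Prop :=
  ∀ᵐ (v : Metric.sphere (0 : E d) 1) ∂((volume : Measure (E d)).toSphere), P v

end Pool.Agent.Lib.MP_c72560_an
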