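import Pool.Agent.Lib.MP_c72560_an.Slopes

open MeasureTheory Set Filter Topology
open scoped ENNReal NNReal RealInnerProductSpace

namespace Pool.Agent.Lib.MP_c72560_an

lemma projPerp_sub {d : ℕ} (v x y : E d) : projPerp v (x - y) = projPerp v x - projPerp v y := by
  unfold projPerp
  exact map_sub _ x y

lemma projPerp_smul {d : ℕ} (v : E d) (c : ℝ) (x : E d) :
    projPerp v (c • x) = c • projPerp v x := by
  unfold projPerp
  exact map_smul _ c x

lemma norm_projPerp_le {d : ℕ} (v x : E d) : ‖projPerp v x‖ ≤ ‖x‖ :=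
  Submodule.norm_starProjection_apply_le _ x

lemma lipschitz_projPerp {d : ℕ} (v : E d) : LipschitzWith 1 (projPerp v) := by
  refine LipschitzWith.of_dist_le_mul fun x y => ?_
  rw [dist_eq_norm, dist_eq_norm, ← projPerp_sub, NNReal.coe_one, one_mul]
  exact norm_projPerp_le v _

lemma inner_projPerp {d : ℕ} (v x u : E d) (h : ⟪v, u⟫ = 0) :
    ⟪projPerp v x, u⟫ = ⟪x, u⟫ := by
  unfold projPerp
  rw [Submodule.inner_starProjection_left_eq_right, Submodule.starProjection_eq_self_iff.mpr]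
  rw [Submodule.mem_orthogonal_singleton_iff_inner_right]
  exact h

lemma det_le {v : E 3} (hv : ‖v‖ = 1) (w : E 3) :
    |w 0 * v 1 - w 1 * v 0| ≤ ‖projPerp v w‖ := by
  set u : E 3 := !₂[v 1, -v 0, 0] with hu
  have h1 : ⟪v, u⟫ = 0 := by
    simp [hu, PiLp.inner_apply, Fin.sum_univ_three]
    ring
  have h2 : ‖u‖ ≤ 1 := by
    have h3 : ‖v‖ ^ 2 = v 0 ^ 2 + v 1 ^ 2 + v 2 ^ 2 := by
      rw [EuclideanSpace.norm_sq_eq, Fin.sum_univ_three]
      simp only [Real.norm_eq_abs, sq_abs]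
    have h4 : ‖u‖ ^ 2 = v 1 ^ 2 + v 0 ^ 2 := by
      rw [EuclideanSpace.norm_sq_eq, Fin.sum_univ_three]
      simp [hu]
    rw [hv] at h3
    have h5 : ‖u‖ ^ 2 ≤ 1 := by
      rw [h4]
      nlinarith [sq_nonneg (v 2)]
    nlinarith [norm_nonneg u]
  have h3 : ⟪w, u⟫ = w 0 * v 1 - w 1 * v 0 := by
    simp [hu, PiLp.inner_apply, Fin.sum_univ_three]
    ring
  rw [← h3, ← inner_projPerp v w u h1]
  refine (abs_real_inner_le_norm _ _).trans ?_
  calc ‖projPerp v w‖ * ‖u‖ ≤ ‖projPerp v w‖ * 1 :=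
        mul_le_mul_of_nonneg_left h2 (norm_nonneg _)
    _ = ‖projPerp v w‖ := mul_one _

lemma Sl_nonempty : Sl.Nonempty :=
  ⟨slope (fun _ => 0, fun _ => 1), (fun _ => 0, fun _ => 1), by simp, rfl⟩

lemma slope_rel (ω ω' : ℕ → Fin 3) :
    ∃ s ∈ Sl, cs fb ω - cs fb ω' = s * (cs fa ω - cs fa ω') := by
  classical
  by_cases hex : ∃ j, ω j ≠ ω' j
  · let m := Nat.find hex
    have hm : ω m ≠ ω' m := Nat.find_spec hex
    have hmin : ∀ j < m, ω j = ω' j := fun j hj => by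
      by_contra h'
      exact Nat.find_min hex hj h'
    have h1 := cs_sub_of_agree fa m ω ω' hmin
    have h2 := cs_sub_of_agree fb m ω ω' hmin
    have h0 : (fun k => ω (m + k)) 0 ≠ (fun k => ω' (m + k)) 0 := by simpa using hm
    refine ⟨slope (fun k => ω (m + k), fun k => ω' (m + k)), ⟨_, h0, rfl⟩, ?_⟩
    rw [h1, h2]
    have h3 := fa_ne (q := (fun k => ω (m + k), fun k => ω' (m + k))) h0
    unfold slope
    field_simp
  · push Not at hex
    obtain ⟨s, hs⟩ := Sl_nonempty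
    refine ⟨s, hs, ?_⟩
    have : ω = ω' := funext hex
    rw [this]
    simp

lemma Sl_le {s : ℝ} (hs : s ∈ Sl) : |s| ≤ 5 / 2 := by
  obtain ⟨q, hq, rfl⟩ := hs
  unfold slope
  have h1 := cs_fa_sep hq
  have h2 := abs_cs_sub_le fb_mem q.1 q.2
  rw [abs_div, div_le_iff₀ (by linarith)]
  linarith

/-- the vertical unit vector -/
noncomputable def e3 : E 3 := !₂[0, 0, 1]

lemma projPerp_e3_pos {v : E 3} (hv0 : v 0 ≠ 0) : 0 < ‖projPerp v e3‖ := by
  rw [norm_pos_iff]
  intro h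
  have h1 : ⟪v, (!₂[v 2, 0, -v 0] : E 3)⟫ = 0 := by
    simp [PiLp.inner_apply, Fin.sum_univ_three]
    ring
  have h2 := inner_projPerp v e3 !₂[v 2, 0, -v 0] h1
  rw [h, inner_zero_left] at h2
  simp [e3, PiLp.inner_apply, Fin.sum_univ_three] at h2
  exact hv0 h2

lemma exists_delta {v : E 3} (hv : v ∉ Bad) : ∃ δ > 0, ∀ s ∈ Sl, δ ≤ |v 1 - s * v 0| := by
  have hv' : v 0 ≠ 0 ∧ v 1 / v 0 ∉ Sl := by
    simpa [Bad] using hv
  obtain ⟨s0, hs0, hmin⟩ := isCompact_Sl.exists_isMinOn Sl_nonempty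
    (f := fun s => |v 1 - s * v 0|) (by fun_prop)
  refine ⟨|v 1 - s0 * v 0|, ?_, fun s hs => hmin hs⟩
  rw [gt_iff_lt, abs_pos]
  intro h0
  apply hv'.2
  have : v 1 / v 0 = s0 := by
    rw [div_eq_iff hv'.1]
    linarith
  rwa [this]

/-- For good directions the projection is bi-Lipschitz on `FF`. -/
lemma bilip {v : E 3} (hv1 : ‖v‖ = 1) (hv : v ∉ Bad) : ∃ c : ℝ, 0 < c ∧ c ≤ 1 ∧
    ∀ x ∈ FF, ∀ y ∈ FF, c * dist x y ≤ dist (projPerp v x) (projPerp v y) := by
  obtain ⟨δ, hδ, hδS⟩ := exists_delta hv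
  have hv' : v 0 ≠ 0 ∧ v 1 / v 0 ∉ Sl := by
    simpa [Bad] using hv
  have hβ := projPerp_e3_pos hv'.1
  set β := ‖projPerp v e3‖ with hβdef
  set D : ℝ := 4 / δ + (1 + 4 / δ) / β with hD
  have hD0 : 0 < D := by positivity
  refine ⟨min D⁻¹ 1, by positivity, min_le_right _ _, ?_⟩
  rintro _ ⟨p, rfl⟩ _ ⟨q, rfl⟩
  obtain ⟨s, hs, hrel⟩ := slope_rel p.1 q.1
  set w : E 3 := pt p - pt q with hw
  have hw0 : w 0 = cs fa p.1 - cs fa q.1 := rfl
  have hw1 : w 1 = s * w 0 := hrel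
  rw [dist_eq_norm, dist_eq_norm, ← projPerp_sub, ← hw]
  have k1 : δ * |w 0| ≤ ‖projPerp v w‖ := by
    refine le_trans ?_ (det_le hv1 w)
    have : w 0 * v 1 - w 1 * v 0 = (v 1 - s * v 0) * w 0 := by
      rw [hw1]
      ring
    rw [this, abs_mul]
    exact mul_le_mul_of_nonneg_right (hδS s hs) (abs_nonneg _)
  have k2 : |w 1| ≤ 5 / 2 * |w 0| := by
    rw [hw1, abs_mul]
    exact mul_le_mul_of_nonneg_right (Sl_le hs) (abs_nonneg _)
  have k3 : ‖w‖ ≤ |w 0| + |w 1| + |w 2| := by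
    have := dist_le_sum w 0
    simpa using this
  have k4 : β * |w 2| ≤ ‖projPerp v w‖ + (|w 0| + |w 1|) := by
    have e1 : w 2 • e3 = w - (!₂[w 0, w 1, 0] : E 3) := by
      ext j
      fin_cases j <;> simp [e3]
    have e2 : ‖projPerp v (w 2 • e3)‖ = β * |w 2| := by
      rw [projPerp_smul, norm_smul, Real.norm_eq_abs, mul_comm]
    rw [← e2, e1, projPerp_sub]
    refine (norm_sub_le _ _).trans ?_
    have e3' : ‖projPerp v (!₂[w 0, w 1, 0] : E 3)‖ ≤ |w 0| + |w 1| := by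
      refine (norm_projPerp_le _ _).trans ?_
      have := dist_le_sum (!₂[w 0, w 1, 0] : E 3) 0
      simpa using this
    linarith
  have k5 : |w 0| ≤ ‖projPerp v w‖ / δ := by
    rw [le_div_iff₀ hδ]
    linarith
  have k6 : |w 0| + |w 1| ≤ 4 / δ * ‖projPerp v w‖ := by
    have h1 : |w 0| + |w 1| ≤ 4 * |w 0| := by
      have := abs_nonneg (w 0)
      linarith
    have h2 : 4 / δ * ‖projPerp v w‖ = 4 * (‖projPerp v w‖ / δ) := by ring
    rw [h2]
    linarith
  have k7 : |w 2| ≤ (1 + 4 / δ) / β * ‖projPerp v w‖ := by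
    rw [div_mul_eq_mul_div, le_div_iff₀ hβ]
    linarith
  have k8 : ‖w‖ ≤ D * ‖projPerp v w‖ := by
    rw [hD, add_mul]
    linarith
  calc min D⁻¹ 1 * ‖w‖ ≤ D⁻¹ * ‖w‖ :=
        mul_le_mul_of_nonneg_right (min_le_left _ _) (norm_nonneg _)
    _ ≤ D⁻¹ * (D * ‖projPerp v w‖) := mul_le_mul_of_nonneg_left k8 (by positivity)
    _ = ‖projPerp v w‖ := by
        rw [← mul_assoc, inv_mul_cancel₀ hD0.ne', one_mul]

lemma dist_vertical (v : E 3) (s t : ℝ) :
    dist (projPerp v !₂[0, 0, s]) (projPerp v !₂[0, 0, t]) = |s - t| * ‖projPerp v e3‖ := by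
  have e1 : (!₂[0, 0, s] : E 3) - !₂[0, 0, t] = (s - t) • e3 := by
    ext j
    fin_cases j <;> simp [e3]
  rw [dist_eq_norm, ← projPerp_sub, e1, projPerp_smul, norm_smul, Real.norm_eq_abs]

lemma gaps {x : ℕ → ℝ} {M : ℕ} {a b : ℝ} (ha : 0 ≤ a)
    (h : ∀ j < M, a ≤ x (j + 1) - x j ∧ x (j + 1) - x j ≤ b) :
    (∀ k i : ℕ, i + k + 1 ≤ M → a ≤ x (i + k + 1) - x i) ∧
      ∀ j ≤ M, 0 ≤ x j - x 0 ∧ x j - x 0 ≤ j * b := by
  constructor
  · intro k
    induction k with
    | zero =>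
      intro i hi
      exact (h i (by omega)).1
    | succ k ih =>
      intro i hi
      have h1 := ih i (by omega)
      have h2 := (h (i + k + 1) (by omega)).1
      have e : i + (k + 1) + 1 = i + k + 1 + 1 := by omega
      rw [e]
      linarith
  · intro j
    induction j with
    | zero =>
      intro _
      simp
    | succ j ih =>
      intro hj
      have h1 := ih (by omega)
      have h2 := h j (by omega)
      push_cast
      constructor <;> linarith

lemma progressions {v : E 3} (hv0 : v 0 ≠ 0) (M : ℕ) :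
    ∃ (R : ℝ) (Q : Fin (M + 1) → E 3), 0 < R ∧ (∀ j, Q j ∈ projPerp v '' FF) ∧
      (∀ j, dist (Q j) (Q 0) < R) ∧
      ∀ i j, i ≠ j → (‖projPerp v e3‖ * rr / 2) * R / (M + 1) ≤ dist (Q i) (Q j) := by
  have hβ := projPerp_e3_pos hv0
  have hβ1 : ‖projPerp v e3‖ ≤ 1 := by
    refine (norm_projPerp_le v e3).trans ?_
    have := dist_le_sum e3 0
    simpa [e3] using this
  set β := ‖projPerp v e3‖ with hβdef
  set η : ℝ := 1 / ((M : ℝ) + 2) with hη
  have hM0 : (0 : ℝ) ≤ M := Nat.cast_nonneg M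
  have hη0 : 0 < η := by positivity
  have hη1 : η < 1 := by
    rw [hη, div_lt_one (by linarith)]
    linarith
  obtain ⟨L, x, hx, hgap⟩ := chain M η hη0 hη1
  have hrL : 0 < rr ^ L := pow_pos rr_pos L
  have hrL1 : 0 < rr ^ (L + 1) := pow_pos rr_pos (L + 1)
  obtain ⟨g1, g2⟩ := gaps (by positivity) hgap
  refine ⟨rr ^ L, fun j => projPerp v !₂[0, 0, x j], hrL, ?_, ?_, ?_⟩
  · intro j
    exact ⟨_, TT_mem (hx j (by omega)), rfl⟩
  · intro j
    rw [dist_vertical]
    obtain ⟨h1, h2⟩ := g2 j (by omega)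
    have hj : ((j : ℕ) : ℝ) ≤ M := by exact_mod_cast (by omega : (j : ℕ) ≤ M)
    have h3 : |x j - x (0 : Fin (M + 1))| ≤ M * (rr ^ L * η) := by
      have e0 : ((0 : Fin (M + 1)) : ℕ) = 0 := rfl
      rw [e0, abs_of_nonneg h1]
      exact h2.trans (mul_le_mul_of_nonneg_right hj (by positivity))
    have h4 : M * (rr ^ L * η) < rr ^ L := by
      have : (M : ℝ) * η < 1 := by
        rw [hη, mul_one_div, div_lt_one (by linarith)]
        linarith
      calc M * (rr ^ L * η) = rr ^ L * (M * η) := by ring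
        _ < rr ^ L * 1 := mul_lt_mul_of_pos_left this hrL
        _ = rr ^ L := mul_one _
    calc |x j - x (0 : Fin (M + 1))| * β ≤ |x j - x (0 : Fin (M + 1))| * 1 :=
          mul_le_mul_of_nonneg_left hβ1 (abs_nonneg _)
      _ < rr ^ L := by linarith
  · have key : ∀ i j : Fin (M + 1), i < j →
        (β * rr / 2) * rr ^ L / (M + 1) ≤ |x i - x j| * β := by
      intro i j hij
      have hij' : (i : ℕ) < j := hij
      have h1 := g1 (j - i - 1) i (by omega)
      have e1 : (i : ℕ) + (j - i - 1) + 1 = j := by omega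
      rw [e1] at h1
      have h2 : rr ^ (L + 1) * η ≤ |x i - x j| := by
        rw [abs_sub_comm]
        exact h1.trans (le_abs_self _)
      refine le_trans ?_ (mul_le_mul_of_nonneg_right h2 hβ.le)
      have h3 : 1 / (2 * ((M : ℝ) + 1)) ≤ η := by
        rw [hη]
        apply one_div_le_one_div_of_le <;> linarith
      calc (β * rr / 2) * rr ^ L / (M + 1) = rr ^ (L + 1) * (1 / (2 * ((M : ℝ) + 1))) * β := by
            rw [pow_succ]
            field_simp
        _ ≤ rr ^ (L + 1) * η * β := by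
            apply mul_le_mul_of_nonneg_right _ hβ.le
            exact mul_le_mul_of_nonneg_left h3 hrL1.le
    intro i j hij
    rw [dist_vertical]
    rcases lt_or_gt_of_ne hij with h | h
    · exact key i j h
    · rw [abs_sub_comm]
      exact key j i h

lemma notInHyperplane_FF : NotInHyperplane FF := by
  intro v c h
  have h0 := h _ (mem_range_self (fun _ => 0, fun _ => 0))
  have h1 := h _ (mem_range_self (fun _ => 2, fun _ => 0))
  have h2 := h _ (mem_range_self (fun _ => 1, fun _ => 0))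
  have h3 := h _ (mem_range_self (fun _ => 0, fun _ => 1))
  rw [Fin.sum_univ_three, pt_zero, pt_one, pt_two, cs_const, cs_const, cs_const] at h0 h1 h2 h3
  norm_num [fa, fb, fc] at h0 h1 h2 h3
  subst h0
  have h1' : v 0 = 0 := by simpa using h1
  have h2' : v 1 = 0 := by
    simp only [h1'] at h2
    simpa using h2
  ext j
  fin_cases j
  · simpa using h1'
  · simpa using h2'
  · simpa using h3

theorem main : ∃ F : Set (E 3), IsSelfSimilar F ∧ NotInHyperplane F ∧
    AlmostEveryDirection fun v =>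
      dimH (projPerp v '' F) < assouadDim (projPerp v '' F) ∧
        assouadDim (projPerp v '' F) < 2 := by
  refine ⟨FF, isSelfSimilar_FF, notInHyperplane_FF, ?_⟩
  unfold AlmostEveryDirection
  filter_upwards [ae_not_Bad] with v hv
  have hv1 : ‖(v : E 3)‖ = 1 := by simp
  have hv' : (v : E 3) 0 ≠ 0 ∧ (v : E 3) 1 / (v : E 3) 0 ∉ Sl := by
    simpa [Bad] using hv
  have hβ := projPerp_e3_pos hv'.1
  have hβ1 : ‖projPerp (v : E 3) e3‖ ≤ 1 := by
    refine (norm_projPerp_le (v : E 3) e3).trans ?_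
    have := dist_le_sum e3 0
    simpa [e3] using this
  obtain ⟨c, hc0, hc1, hc⟩ := bilip hv1 hv
  have hup : assouadDim (projPerp (v : E 3) '' FF) ≤ ((5 / 4 : ℝ≥0) : ℝ≥0∞) :=
    iInf₂_le _ (isAssouadExponent_FF.image (lipschitz_projPerp _) hc0 hc1 hc)
  have hlow : 1 ≤ assouadDim (projPerp (v : E 3) '' FF) := by
    refine le_iInf₂ fun s hs => ?_
    have h1 : 1 ≤ s := by
      refine one_le_of_progressions hs (κ := ‖projPerp (v : E 3) e3‖ * rr / 2) ?_ ?_
        (progressions hv'.1)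
      · have := rr_pos
        positivity
      · have h2 := rr_pos
        have h3 := rr_lt
        nlinarith
    exact_mod_cast h1
  have hdim : dimH (projPerp (v : E 3) '' FF) ≤ ((1 / 2 : ℝ≥0) : ℝ≥0∞) :=
    ((lipschitz_projPerp (v : E 3)).dimH_image_le FF).trans dimH_FF_le
  constructor
  · refine lt_of_le_of_lt hdim (lt_of_lt_of_le ?_ hlow)
    have h : (1 / 2 : ℝ≥0) < 1 := by
      rw [← NNReal.coe_lt_coe]
      norm_num
    exact_mod_cast h
  · refine lt_of_le_of_lt hup ?_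
    have h : (5 / 4 : ℝ≥0) < 2 := by
      rw [← NNReal.coe_lt_coe]
      norm_num
    exact_mod_cast h

end Pool.Agent.Lib.MP_c72560_an
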