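import Pool.Agent.Lib.MP_c72560_an.SetF

open MeasureTheory Set Filter Topology
open scoped ENNReal NNReal

namespace Pool.Agent.Lib.MP_c72560_an

lemma hausdorff_null {X : Type*} [EMetricSpace X] [MeasurableSpace X] [BorelSpace X] (S : Set X)
    (C : ℝ) (hC : 0 < C) (U : ∀ n : ℕ, ((Fin n → Fin 3) × (Fin n → Fin 3)) → Set X)
    (hU : ∀ n i, Metric.ediam (U n i) ≤ ENNReal.ofReal (C * rr ^ n))
    (hS : ∀ n, S ⊆ ⋃ i, U n i) : Measure.hausdorffMeasure (1 / 2 : ℝ) S = 0 := by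
  have hr : Tendsto (fun n : ℕ => ENNReal.ofReal (C * rr ^ n)) atTop (𝓝 0) := by
    have h1 : Tendsto (fun n : ℕ => C * rr ^ n) atTop (𝓝 (C * 0)) :=
      (tendsto_pow_atTop_nhds_zero_of_lt_one rr_pos.le rr_lt).const_mul C
    rw [mul_zero] at h1
    have h2 := ENNReal.tendsto_ofReal h1
    rwa [ENNReal.ofReal_zero] at h2
  have h1 := Measure.hausdorffMeasure_le_liminf_sum (1 / 2 : ℝ) S
    (fun n : ℕ => ENNReal.ofReal (C * rr ^ n)) hr U (Eventually.of_forall fun n i => hU n i)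
    (Eventually.of_forall hS)
  have h2 : ∀ n : ℕ, ∑ i, Metric.ediam (U n i) ^ (1 / 2 : ℝ) ≤
      ENNReal.ofReal (C ^ (1 / 2 : ℝ) * (9 / 10) ^ n) := by
    intro n
    have h3 : ∀ i, Metric.ediam (U n i) ^ (1 / 2 : ℝ) ≤
        ENNReal.ofReal (C ^ (1 / 2 : ℝ) * (1 / 10) ^ n) := by
      intro i
      refine (ENNReal.rpow_le_rpow (hU n i) (by norm_num)).trans ?_
      have hrn : 0 < rr ^ n := pow_pos rr_pos n
      rw [ENNReal.ofReal_rpow_of_pos (by positivity)]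
      apply ENNReal.ofReal_le_ofReal
      rw [Real.mul_rpow hC.le hrn.le]
      apply mul_le_mul_of_nonneg_left _ (by positivity)
      have h5 : rr ^ n = ((1 / 10 : ℝ) ^ n) ^ 2 := by
        rw [← pow_mul, mul_comm n 2, pow_mul]
        norm_num [rr]
      rw [h5, ← Real.sqrt_eq_rpow, Real.sqrt_sq (by positivity)]
    refine (Finset.sum_le_sum fun i _ => h3 i).trans ?_
    rw [Finset.sum_const, Finset.card_univ, Fintype.card_prod]
    simp only [Fintype.card_pi, Fintype.card_fin, Finset.prod_const, Finset.card_univ]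
    rw [nsmul_eq_mul, ← ENNReal.ofReal_natCast, ← ENNReal.ofReal_mul (by positivity)]
    apply ENNReal.ofReal_le_ofReal
    push_cast
    rw [← mul_pow]
    have : (3 * 3 : ℝ) ^ n * (C ^ (1 / 2 : ℝ) * (1 / 10) ^ n) =
        C ^ (1 / 2 : ℝ) * (9 / 10) ^ n := by
      rw [mul_left_comm, ← mul_pow]
      norm_num
    exact this.le
  have h3 : Tendsto (fun n : ℕ => ENNReal.ofReal (C ^ (1 / 2 : ℝ) * (9 / 10) ^ n)) atTop
      (𝓝 0) := by
    have h1 : Tendsto (fun n : ℕ => C ^ (1 / 2 : ℝ) * (9 / 10 : ℝ) ^ n) atTop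
        (𝓝 (C ^ (1 / 2 : ℝ) * 0)) :=
      (tendsto_pow_atTop_nhds_zero_of_lt_one (by norm_num) (by norm_num)).const_mul _
    rw [mul_zero] at h1
    have h2 := ENNReal.tendsto_ofReal h1
    rwa [ENNReal.ofReal_zero] at h2
  have h4 : liminf (fun n => ∑ i, Metric.ediam (U n i) ^ (1 / 2 : ℝ)) atTop ≤ 0 := by
    rw [← h3.liminf_eq]
    exact liminf_le_liminf (Eventually.of_forall h2)
  exact le_antisymm (h1.trans h4) zero_le

lemma dist_le_sum (x y : E 3) : dist x y ≤ |x 0 - y 0| + |x 1 - y 1| + |x 2 - y 2| := by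
  rw [EuclideanSpace.dist_eq, Fin.sum_univ_three]
  simp only [Real.dist_eq]
  apply Real.sqrt_le_iff.mpr
  constructor
  · positivity
  · nlinarith [abs_nonneg (x 0 - y 0), abs_nonneg (x 1 - y 1), abs_nonneg (x 2 - y 2),
      mul_nonneg (abs_nonneg (x 0 - y 0)) (abs_nonneg (x 1 - y 1)),
      mul_nonneg (abs_nonneg (x 0 - y 0)) (abs_nonneg (x 2 - y 2)),
      mul_nonneg (abs_nonneg (x 1 - y 1)) (abs_nonneg (x 2 - y 2))]

lemma abs_sub_le_dist (x y : E 3) (i : Fin 3) : |x i - y i| ≤ dist x y := by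
  rw [dist_eq_norm]
  have := PiLp.norm_apply_le (x - y) i
  simpa [Real.norm_eq_abs] using this

lemma dimH_FF_le : dimH FF ≤ (1 / 2 : ℝ≥0) := by
  apply dimH_le_of_hausdorffMeasure_ne_top
  have h : Measure.hausdorffMeasure (1 / 2 : ℝ) FF = 0 := by
    refine hausdorff_null FF 3 (by norm_num)
      (fun n i => pt '' {p | (∀ k : Fin n, p.1 k = i.1 k) ∧ ∀ k : Fin n, p.2 k = i.2 k}) ?_ ?_
    · intro n i
      apply Metric.ediam_le_of_forall_dist_le
      rintro _ ⟨p, ⟨hp1, hp2⟩, rfl⟩ _ ⟨q, ⟨hq1, hq2⟩, rfl⟩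
      have h1 : ∀ k < n, p.1 k = q.1 k := fun k hk => (hp1 ⟨k, hk⟩).trans (hq1 ⟨k, hk⟩).symm
      have h2 : ∀ k < n, p.2 k = q.2 k := fun k hk => (hp2 ⟨k, hk⟩).trans (hq2 ⟨k, hk⟩).symm
      have a1 := abs_cs_sub_le_of_agree fa_mem h1
      have a2 := abs_cs_sub_le_of_agree fb_mem h1
      have a3 := abs_cs_sub_le_of_agree fc_mem h2
      have a4 := dist_le_sum (pt p) (pt q)
      simp only [pt_zero, pt_one, pt_two] at a4
      linarith
    · rintro n _ ⟨p, rfl⟩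
      exact mem_iUnion.mpr ⟨(fun k => p.1 k, fun k => p.2 k), p, ⟨fun _ => rfl, fun _ => rfl⟩, rfl⟩
  have h' : ((1 / 2 : ℝ≥0) : ℝ) = (1 / 2 : ℝ) := by norm_num
  rw [h', h]
  exact ENNReal.zero_ne_top

end Pool.Agent.Lib.MP_c72560_an
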