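import Pool.Agent.Lib.MP_c72560_an.Chain
import Pool.Agent.Lib.MP_c72560_an.Cover

open MeasureTheory Set Filter Topology
open scoped ENNReal NNReal

namespace Pool.Agent.Lib.MP_c72560_an

/-- the point of a pair of codes -/
noncomputable def pt (p : (ℕ → Fin 3) × (ℕ → Fin 3)) : E 3 := !₂[cs fa p.1, cs fb p.1, cs fc p.2]

/-- the self-similar set -/
noncomputable def FF : Set (E 3) := Set.range pt

lemma pt_zero (p : (ℕ → Fin 3) × (ℕ → Fin 3)) : pt p 0 = cs fa p.1 := rfl
lemma pt_one (p : (ℕ → Fin 3) × (ℕ → Fin 3)) : pt p 1 = cs fb p.1 := rfl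
lemma pt_two (p : (ℕ → Fin 3) × (ℕ → Fin 3)) : pt p 2 = cs fc p.2 := rfl

lemma continuous_pt : Continuous pt := by
  unfold pt
  refine (PiLp.continuous_toLp 2 _).comp (continuous_pi fun i => ?_)
  fin_cases i
  · exact (continuous_cs fa).comp continuous_fst
  · exact (continuous_cs fb).comp continuous_fst
  · exact (continuous_cs fc).comp continuous_snd

/-- digit vectors -/
noncomputable def dig (i : Fin 3 × Fin 3) : E 3 := !₂[fa i.1, fb i.1, fc i.2]

/-- the similarities -/
noncomputable def SS (i : Fin 9) (x : E 3) : E 3 := rr • x + dig (finProdFinEquiv.symm i)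

lemma SS_cons (i : Fin 3 × Fin 3) (p : (ℕ → Fin 3) × (ℕ → Fin 3)) :
    SS (finProdFinEquiv i) (pt p) = pt (cons i.1 p.1, cons i.2 p.2) := by
  unfold SS
  rw [Equiv.symm_apply_apply]
  ext j
  fin_cases j
  · simp [pt, dig, cs_cons, add_comm]
  · simp [pt, dig, cs_cons, add_comm]
  · simp [pt, dig, cs_cons, add_comm]

lemma dig_mem (i : Fin 3 × Fin 3) (j : Fin 3) : 0 ≤ dig i j ∧ dig i j ≤ 99 / 100 := by
  fin_cases j
  · exact fa_mem i.1
  · exact fb_mem i.1
  · exact fc_mem i.2

lemma isCubeSimilarity_SS (i : Fin 9) : IsCubeSimilarity (SS i) := by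
  refine ⟨⟨rr, rr_pos, rr_lt, ?_⟩, ?_⟩
  · intro x y
    unfold SS
    rw [dist_add_right, dist_smul₀, Real.norm_eq_abs, abs_of_pos rr_pos]
  · intro x hx j
    have h1 := dig_mem (finProdFinEquiv.symm i) j
    have h2 := hx j
    have h3 : SS i x j = rr * x j + dig (finProdFinEquiv.symm i) j := by
      simp [SS]
    rw [h3]
    have h4 : rr * x j ≤ 1 / 100 := by
      have : rr * x j ≤ rr * 1 := mul_le_mul_of_nonneg_left h2.2 rr_pos.le
      norm_num [rr] at this ⊢
      linarith
    have h5 : 0 ≤ rr * x j := mul_nonneg rr_pos.le h2.1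
    constructor <;> linarith

lemma isSelfSimilar_FF : IsSelfSimilar FF := by
  refine ⟨9, SS, isCubeSimilarity_SS, ⟨pt (fun _ => 0, fun _ => 0), mem_range_self _⟩,
    isCompact_range continuous_pt, ?_, ?_⟩
  · rintro _ ⟨p, rfl⟩ j
    fin_cases j
    · exact cs_mem_Icc fa_mem p.1
    · exact cs_mem_Icc fb_mem p.1
    · exact cs_mem_Icc fc_mem p.2
  · apply Set.Subset.antisymm
    · rintro _ ⟨p, rfl⟩
      refine mem_iUnion.mpr ⟨finProdFinEquiv (p.1 0, p.2 0), pt (sh p.1, sh p.2),
        mem_range_self _, ?_⟩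
      rw [SS_cons]
      simp only [cons_sh]
    · refine iUnion_subset fun i => ?_
      rintro _ ⟨_, ⟨p, rfl⟩, rfl⟩
      obtain ⟨j, rfl⟩ : ∃ j : Fin 3 × Fin 3, finProdFinEquiv j = i :=
        (finProdFinEquiv (m := 3) (n := 3)).surjective i
      rw [SS_cons]
      exact mem_range_self _

lemma cs_const (f : Fin 3 → ℝ) (i : Fin 3) : cs f (fun _ => i) = 100 / 99 * f i := by
  unfold cs
  rw [tsum_mul_right, tsum_geometric_of_lt_one rr_pos.le rr_lt]
  norm_num [rr]

/-- Values of finite vertical words occur on the vertical axis. -/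
lemma TT_mem {L : ℕ} {t : ℝ} (ht : t ∈ TT L) : !₂[0, 0, t] ∈ FF := by
  obtain ⟨d, rfl⟩ := ht
  refine ⟨(fun _ => 0, fun k => if k < L then d k else 0), ?_⟩
  ext j
  fin_cases j
  · simp [pt, cs_const, fa]
  · simp [pt, cs_const, fb]
  · simp only [pt]
    unfold cs
    have : ∑' n : ℕ, rr ^ n * fc (if n < L then d n else 0) =
        ∑ k ∈ Finset.range L, rr ^ k * fc (d k) := by
      rw [tsum_eq_sum (s := Finset.range L)]
      · apply Finset.sum_congr rfl
        intro k hk
        rw [if_pos (Finset.mem_range.mp hk)]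
      · intro k hk
        rw [if_neg (fun h => hk (Finset.mem_range.mpr h))]
        simp [fc]
    simp [this]

end Pool.Agent.Lib.MP_c72560_an
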