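import Pool.Agent.Lib.MP_c72560_an.AssouadUp

open MeasureTheory Set Filter Topology
open scoped ENNReal NNReal Pointwise

namespace Pool.Agent.Lib.MP_c72560_an

/-- the slope of a pair of horizontal codes -/
noncomputable def slope (q : (ℕ → Fin 3) × (ℕ → Fin 3)) : ℝ :=
  (cs fb q.1 - cs fb q.2) / (cs fa q.1 - cs fa q.2)

/-- the set of slopes -/
noncomputable def Sl : Set ℝ := slope '' {q | q.1 0 ≠ q.2 0}

lemma fa_ne {q : (ℕ → Fin 3) × (ℕ → Fin 3)} (h : q.1 0 ≠ q.2 0) :
    cs fa q.1 - cs fa q.2 ≠ 0 := by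
  intro h0
  have := cs_fa_sep h
  rw [h0, abs_zero] at this
  norm_num at this

lemma isCompact_Sl : IsCompact Sl := by
  unfold Sl
  have hcl : IsClosed {q : (ℕ → Fin 3) × (ℕ → Fin 3) | q.1 0 ≠ q.2 0} := by
    have h1 : Continuous fun q : (ℕ → Fin 3) × (ℕ → Fin 3) => (q.1 0, q.2 0) := by fun_prop
    have h2 : IsClosed {i : Fin 3 × Fin 3 | i.1 ≠ i.2} := isClosed_discrete _
    exact h2.preimage h1
  apply hcl.isCompact.image_of_continuousOn
  unfold slope
  apply ContinuousOn.div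
  · exact (((continuous_cs fb).comp continuous_fst).sub
      ((continuous_cs fb).comp continuous_snd)).continuousOn
  · exact (((continuous_cs fa).comp continuous_fst).sub
      ((continuous_cs fa).comp continuous_snd)).continuousOn
  · intro q hq
    exact fa_ne hq

lemma div_sub_div_le {a b a' b' ε : ℝ} (hb : 2 / 5 ≤ |b|) (hb' : 2 / 5 ≤ |b'|) (ha' : |a'| ≤ 1)
    (h1 : |a - a'| ≤ 2 * ε) (h2 : |b - b'| ≤ 2 * ε) : |a / b - a' / b'| ≤ 20 * ε := by
  have hb0 : b ≠ 0 := by
    intro h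
    rw [h, abs_zero] at hb
    norm_num at hb
  have hb0' : b' ≠ 0 := by
    intro h
    rw [h, abs_zero] at hb'
    norm_num at hb'
  have hε : 0 ≤ ε := by
    have := abs_nonneg (a - a')
    linarith
  have e : a / b - a' / b' = (a - a') / b - a' * (b - b') / (b * b') := by
    field_simp
    ring
  rw [e]
  refine (abs_sub _ _).trans ?_
  rw [abs_div, abs_div, abs_mul, abs_mul]
  have hbp : 0 < |b| := by linarith
  have hbp' : 0 < |b'| := by linarith
  have t1 : |a - a'| / |b| ≤ 5 * ε := by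
    rw [div_le_iff₀ hbp]
    nlinarith
  have t2 : |a'| * |b - b'| / (|b| * |b'|) ≤ 15 * ε := by
    rw [div_le_iff₀ (by positivity)]
    have h3 : (4 / 25 : ℝ) ≤ |b| * |b'| := by nlinarith
    have h4 : |a'| * |b - b'| ≤ 1 * (2 * ε) :=
      mul_le_mul ha' h2 (abs_nonneg _) (by norm_num)
    nlinarith
  linarith

lemma volume_Sl : volume Sl = 0 := by
  have h : Measure.hausdorffMeasure (1 / 2 : ℝ) Sl = 0 := by
    refine hausdorff_null Sl 20 (by norm_num)
      (fun n i => slope '' {q | q.1 0 ≠ q.2 0 ∧ (∀ k : Fin n, q.1 k = i.1 k) ∧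
        ∀ k : Fin n, q.2 k = i.2 k}) ?_ ?_
    · intro n i
      apply Metric.ediam_le_of_forall_dist_le
      rintro _ ⟨p, ⟨hp0, hp1, hp2⟩, rfl⟩ _ ⟨q, ⟨hq0, hq1, hq2⟩, rfl⟩
      have h1 : ∀ k < n, p.1 k = q.1 k := fun k hk => (hp1 ⟨k, hk⟩).trans (hq1 ⟨k, hk⟩).symm
      have h2 : ∀ k < n, p.2 k = q.2 k := fun k hk => (hp2 ⟨k, hk⟩).trans (hq2 ⟨k, hk⟩).symm
      have a1 := abs_le.mp (abs_cs_sub_le_of_agree fa_mem h1)
      have a2 := abs_le.mp (abs_cs_sub_le_of_agree fa_mem h2)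
      have b1 := abs_le.mp (abs_cs_sub_le_of_agree fb_mem h1)
      have b2 := abs_le.mp (abs_cs_sub_le_of_agree fb_mem h2)
      rw [Real.dist_eq]
      unfold slope
      apply div_sub_div_le (cs_fa_sep hp0) (cs_fa_sep hq0) (abs_cs_sub_le fb_mem _ _)
      · rw [abs_le]
        constructor <;> linarith
      · rw [abs_le]
        constructor <;> linarith
    · rintro n _ ⟨p, hp, rfl⟩
      exact mem_iUnion.mpr ⟨(fun k => p.1 k, fun k => p.2 k), p,
        ⟨hp, fun _ => rfl, fun _ => rfl⟩, rfl⟩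
  have h1 : Measure.hausdorffMeasure 1 Sl = 0 :=
    le_antisymm ((Measure.hausdorffMeasure_mono (by norm_num) Sl).trans h.le) zero_le
  rwa [hausdorffMeasure_real] at h1

/-- the set of bad directions -/
def Bad : Set (E 3) := {v | v 0 = 0 ∨ v 1 / v 0 ∈ Sl}

lemma measurableSet_Bad : MeasurableSet Bad := by
  have hm : ∀ i : Fin 3, Measurable fun v : E 3 => v i := fun i => by
    have : Continuous fun v : E 3 => v i := by fun_prop
    exact this.measurable
  apply MeasurableSet.union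
  · exact (hm 0) (measurableSet_singleton (0 : ℝ))
  · exact ((hm 1).div (hm 0)) isCompact_Sl.measurableSet

/-- planar version of the bad set -/
def Bad' : Set (ℝ × (Fin 2 → ℝ)) := {z | z.2 0 = 0 ∨ z.1 / z.2 0 ∈ Sl}

lemma measurableSet_Bad' : MeasurableSet Bad' := by
  have h1 : Measurable fun z : ℝ × (Fin 2 → ℝ) => z.2 0 := by fun_prop
  have h2 : Measurable fun z : ℝ × (Fin 2 → ℝ) => z.1 := by fun_prop
  apply MeasurableSet.union
  · exact h1 (measurableSet_singleton (0 : ℝ))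
  · exact (h2.div h1) isCompact_Sl.measurableSet

lemma volume_Bad' : (volume : Measure (ℝ × (Fin 2 → ℝ))) Bad' = 0 := by
  rw [Measure.volume_eq_prod, Measure.prod_apply_symm measurableSet_Bad']
  rw [lintegral_eq_zero_iff' ?_]
  · have h1 : ∀ᵐ y ∂(volume : Measure (Fin 2 → ℝ)), y 0 ≠ 0 :=
      Measure.ae_eval_ne (fun _ : Fin 2 => (volume : Measure ℝ)) 0 0
    filter_upwards [h1] with y hy
    have h2 : ((fun x : ℝ => (x, y)) ⁻¹' Bad') = (· * (y 0)⁻¹) ⁻¹' Sl := by
      ext x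
      simp only [Bad', mem_preimage, mem_ofPred_eq, hy, false_or, div_eq_mul_inv]
    rw [h2, Real.volume_preimage_mul_right (inv_ne_zero hy), volume_Sl, mul_zero]
    rfl
  · exact (measurable_measure_prodMk_right measurableSet_Bad').aemeasurable

lemma volume_Bad : (volume : Measure (E 3)) Bad = 0 := by
  have h1 := (PiLp.volume_preserving_ofLp (Fin 3))
  have h2 := volume_preserving_piFinSuccAbove (fun _ : Fin 3 => ℝ) 1
  have h3 := h2.comp h1
  have h4 : Bad = ((MeasurableEquiv.piFinSuccAbove (fun _ : Fin 3 => ℝ) 1) ∘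
      (WithLp.ofLp : E 3 → Fin 3 → ℝ)) ⁻¹' Bad' := by
    ext v
    rfl
  rw [h4, h3.measure_preimage measurableSet_Bad'.nullMeasurableSet, volume_Bad']

lemma ae_not_Bad : ∀ᵐ (v : Metric.sphere (0 : E 3) 1) ∂((volume : Measure (E 3)).toSphere),
    (v : E 3) ∉ Bad := by
  rw [ae_iff]
  simp only [not_not]
  have hm : MeasurableSet {v : Metric.sphere (0 : E 3) 1 | (v : E 3) ∈ Bad} :=
    measurable_subtype_coe measurableSet_Bad
  rw [Measure.toSphere_apply' _ hm]
  have h1 : Ioo (0 : ℝ) 1 • ((fun v : Metric.sphere (0 : E 3) 1 => (v : E 3)) ''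
      {v : Metric.sphere (0 : E 3) 1 | (v : E 3) ∈ Bad}) ⊆ Bad := by
    rintro _ ⟨t, ht, _, ⟨v, hv, rfl⟩, rfl⟩
    rcases hv with hv | hv
    · left
      simp [hv]
    · right
      have ht0 : t ≠ 0 := ht.1.ne'
      simp only [PiLp.smul_apply, smul_eq_mul]
      rwa [mul_div_mul_left _ _ ht0]
  rw [measure_mono_null h1 volume_Bad, mul_zero]

end Pool.Agent.Lib.MP_c72560_an
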